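import Pool.Agent.X136.DP.CluLim
import Pool.Agent.Results.MP_6bd702_pr.LimitCurves
import Pool.Agent.Results.MP_6bd702_pr.PerimeterExponent

set_option autoImplicit false

/-!
# Clusters and their perimeters when the parameters of the edges are changed

Bond percolation on `ℤ²` in which the edge `e` is open with probability `q e`, where the numbers
`q e ∈ [0, 1]` are arbitrary (`law q`; `law half` is critical percolation). The macroscopic clusters, in
particular the outer perimeter of the largest cluster of the box `Λ_n`, have the same law for large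
`n` as for critical percolation as soon as the sum of `(2 q e - 1) ^ 2` over the edges of `Λ_n` is
small compared with `n ^ (5/48) / log n`. For instance the states of any `n ^ (1/10)` edges of `Λ_n`,
chosen in advance, can be prescribed.

Definitions: `Pool.Agent.X136.CQ.Model`.
-/

namespace Pool.Agent.Results.MP_6bd702_pr.DeterministicPerturbation

open H342P.Plain H342L H342N H342T MeasureTheory ProbabilityTheory Filter Topology
open Pool.Agent.X136.CQ.Model

/-- **Stability of the macroscopic clusters under deterministic perturbations.** -/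
theorem result :
    (∃ C : ℝ, 0 < C ∧
      (∀ (q : Edge → unitInterval) (W : Finset Edge) (m : ℕ), 1 ≤ m → ∀ g : Finset Edge → ℝ,
        OfLarge m W g → (∀ F, |g F| ≤ 1) →
        |(∫ ω, g (opened W ω) ∂law q) - ∫ ω, g (opened W ω) ∂law half| ≤
          C * Real.sqrt ((m : ℝ) ^ (-(5 / 48 : ℝ)) * ∑ e ∈ W, (2 * (q e : ℝ) - 1) ^ 2)) ∧
      ∀ (q : Edge → unitInterval) (n : ℕ), 1 ≤ n → ∀ {X : Type} (f : Finset Edge → X),
        OfLargest n f → ∀ h : X → ℝ, (∀ x, |h x| ≤ 1) →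
        |(∫ ω, h (f (opened (edges n) ω)) ∂law q) - ∫ ω, h (f (opened (edges n) ω)) ∂law half| ≤
          C * Real.sqrt ((1 + ∑ e ∈ edges n, (2 * (q e : ℝ) - 1) ^ 2) * (Real.log n + 1) *
            (n : ℝ) ^ (-(5 / 48 : ℝ)))) ∧
    ∀ (q : ℕ → Edge → unitInterval) (k : ℕ → ℕ), (∀ i, 1 ≤ k i) → Tendsto k atTop atTop →
      Tendsto (fun i => (1 + ∑ e ∈ edges (k i), (2 * (q i e : ℝ) - 1) ^ 2) *
        (Real.log (k i) + 1) * (k i : ℝ) ^ (-(5 / 48 : ℝ))) atTop (𝓝 0) →
      (∀ (X : Type) [TopologicalSpace X] [MeasurableSpace X] [OpensMeasurableSpace X]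
        (f : ℕ → Finset Edge → X), (∀ i, OfLargest (k i) (f i)) → ∀ μ : ProbabilityMeasure X,
        Tendsto (fun i => lawQ (q i) (k i) (f i)) atTop (𝓝 μ) ↔
          Tendsto (fun i => lawOf (k i) (f i)) atTop (𝓝 μ)) ∧
      (∀ (sel : (n : ℕ) → Finset Edge → ℤ × ℤ) (γ : (n : ℕ) → Finset Edge → Curve),
        (∀ n F, 0 < n → F ⊆ edges n → Largest n F (sel n F)) →
        (∀ n F, 0 < n → F ⊆ edges n → IsTrace n F (sel n F) (γ n F)) →
        (∀ i, OfLargest (k i) (γ (k i))) →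
        (∃ (ψ : ℕ → ℕ) (μ : ProbabilityMeasure Curve), StrictMono ψ ∧
          Tendsto (fun i => lawQ (q (ψ i)) (k (ψ i)) (γ (k (ψ i)))) atTop (𝓝 μ)) ∧
        ∀ μ : ProbabilityMeasure Curve,
          Tendsto (fun i => lawQ (q i) (k i) (γ (k i))) atTop (𝓝 μ) →
          ∀ᵐ c : Curve ∂(μ : Measure Curve), c.path 0 = c.path 1 ∧
            dimH (Set.range c.path) = 7 / 4 ∧ HasDouble c) ∧
      (∀ δ : ℝ, 0 < δ → ∃ lam Lam : ℝ, 0 < lam ∧ lam < Lam ∧ ∀ᶠ i in atTop,
        1 - δ ≤ (law (q i)).real {ω | ∀ v, Largest (k i) (opened (edges (k i)) ω) v →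
          lam * (k i : ℝ) ^ (7 / 4 : ℝ) ≤ (perimeterEdges (opened (edges (k i)) ω) v : ℝ) ∧
            (perimeter (opened (edges (k i)) ω) v : ℝ) ≤ Lam * (k i : ℝ) ^ (7 / 4 : ℝ)}) ∧
      ∀ ε : ℝ, 0 < ε → Tendsto (fun i => (law (q i)).real
        {ω | ∀ v, Largest (k i) (opened (edges (k i)) ω) v →
          (k i : ℝ) ^ (7 / 4 - ε) < (perimeterEdges (opened (edges (k i)) ω) v : ℝ) ∧
            (perimeter (opened (edges (k i)) ω) v : ℝ) < (k i : ℝ) ^ (7 / 4 + ε)})
        atTop (𝓝 1) := by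
  obtain ⟨C1, hC1, h1⟩ := Pool.Agent.X136.DP.tv_large
  obtain ⟨C2, hC2, h2⟩ := Pool.Agent.X136.DP.rate
  refine ⟨⟨max C1 C2, lt_max_of_lt_left hC1, ?_, ?_⟩, ?_⟩
  · intro q W m hm g hg hg1
    exact (h1 q W m hm g hg hg1).trans
      (mul_le_mul_of_nonneg_right (le_max_left _ _) (Real.sqrt_nonneg _))
  · intro q n hn X f hf h hh
    exact (h2 q n hn f hf h hh).trans
      (mul_le_mul_of_nonneg_right (le_max_right _ _) (Real.sqrt_nonneg _))
  · intro q k hk1 hk her
    have her' : Tendsto (fun i => Pool.Agent.X136.DP.er (q i) (k i)) atTop (𝓝 0) := her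
    have hlaw : ∀ (X : Type) [TopologicalSpace X] [MeasurableSpace X] [OpensMeasurableSpace X]
        (f : ℕ → Finset Edge → X), (∀ i, OfLargest (k i) (f i)) → ∀ μ : ProbabilityMeasure X,
        Tendsto (fun i => lawQ (q i) (k i) (f i)) atTop (𝓝 μ) ↔
          Tendsto (fun i => lawOf (k i) (f i)) atTop (𝓝 μ) := by
      intro X _ _ _ f hf μ
      exact Pool.Agent.X136.DP.law_iff hk1 her' hf μ
    obtain ⟨C3, hC3, h3⟩ := Pool.Agent.X136.DP.perim_prob
    have hz := (Pool.Agent.X136.DP.er_sqrt_zero her').const_mul C3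
    rw [mul_zero] at hz
    refine ⟨hlaw, ?_, ?_, ?_⟩
    · intro sel γ hsel hγ hf
      obtain ⟨hT1, hT⟩ := LimitCurves.result
      obtain ⟨hT2, hT3⟩ := hT sel hsel
      have hγ' : ∀ n F, 0 < n → F ⊆ edges n → (γ n F).path 0 = (γ n F).path 1 ∧
          Set.range (γ n F).path = outerBoundary n F (sel n F) := by
        intro n F hn hF
        have hv : sel n F ∈ H342P.Plain.box n := (hsel n F hn hF).1
        exact (hT1 n F (sel n F) hn hF hv).2 _ (hγ n F hn hF)
      refine ⟨?_, fun μ hμ => ?_⟩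
      · obtain ⟨ψ, μ, hψ, hμ⟩ := hT2 γ hγ k hk
        refine ⟨ψ, μ, hψ, ?_⟩
        exact (Pool.Agent.X136.DP.law_iff (q := fun i => q (ψ i)) (k := fun i => k (ψ i))
          (f := fun i => γ (k (ψ i))) (fun i => hk1 _) (her'.comp hψ.tendsto_atTop)
          (fun i => hf _) μ).2 hμ
      · exact hT3 γ hγ' k μ hk ((hlaw Curve (fun i => γ (k i)) hf μ).1 hμ)
    · intro δ hδ
      obtain ⟨lam, Lam, hl, hL, hev⟩ := PerimeterExponent.result.2.2.1 (δ / 2) (by positivity)
      refine ⟨lam, Lam, hl, hL, ?_⟩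
      filter_upwards [hk.eventually hev, hz.eventually (gt_mem_nhds (show (0:ℝ) < δ / 2 by
        positivity))] with i hi hi2
      have h4 := abs_le.1 (h3 (q i) (k i) (hk1 i) (fun a b =>
        lam * (k i : ℝ) ^ (7 / 4 : ℝ) ≤ (a : ℝ) ∧ (b : ℝ) ≤ Lam * (k i : ℝ) ^ (7 / 4 : ℝ)))
      have h5 := h4.1
      have h6 : (1:ℝ) - δ / 2 ≤ prob (k i) (fun F => ∀ v, Largest (k i) F v →
        lam * (k i : ℝ) ^ (7 / 4 : ℝ) ≤ (perimeterEdges F v : ℝ) ∧
          (perimeter F v : ℝ) ≤ Lam * (k i : ℝ) ^ (7 / 4 : ℝ)) := hi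
      change 1 - δ ≤ (Pool.Agent.X136.QC.pl (q i)).real _
      linarith
    · intro ε hε
      have h4 := (PerimeterExponent.result.2.2.2 ε hε).comp hk
      have h5 : Tendsto (fun i => (law (q i)).real
          {ω | ∀ v, Largest (k i) (opened (edges (k i)) ω) v →
            (k i : ℝ) ^ (7 / 4 - ε) < (perimeterEdges (opened (edges (k i)) ω) v : ℝ) ∧
              (perimeter (opened (edges (k i)) ω) v : ℝ) < (k i : ℝ) ^ (7 / 4 + ε)} -
          prob (k i) (fun F => ∀ v, Largest (k i) F v →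
            (k i : ℝ) ^ (7 / 4 - ε) < (perimeterEdges F v : ℝ) ∧
              (perimeter F v : ℝ) < (k i : ℝ) ^ (7 / 4 + ε))) atTop (𝓝 0) := by
        refine squeeze_zero_norm (fun i => ?_) hz
        exact h3 (q i) (k i) (hk1 i) (fun a b => (k i : ℝ) ^ (7 / 4 - ε) < (a : ℝ) ∧
          (b : ℝ) < (k i : ℝ) ^ (7 / 4 + ε))
      have h6 := h5.add h4
      rw [zero_add] at h6
      refine h6.congr fun i => ?_
      simp only [Function.comp]
      ring

end Pool.Agent.Results.MP_6bd702_pr.DeterministicPerturbation
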