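import Pool.Agent.X135.PL.Final2
import Pool.Agent.Results.MP_6bd702_pr.PerimeterExponent

/-!
# The lower tail of the outer perimeter of the largest critical percolation cluster

Critical bond percolation on `ℤ²` in the box `Λ_n = {0, …, n}²`: `F` is the set of open edges,
uniformly distributed on the subsets of `edges n` (`Plain.prob`).  `Plain.Largest n F v` says that
the cluster of `v` has the largest Euclidean diameter and `Plain.perimeter F v` is the number of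
steps of the closed lattice path which traces the boundary of the unbounded component of the
complement of the cluster of `v`.  These definitions are in `Pool/Agent/H342R2/Per/Plain.lean`.
The law of a function of `F` is `H342L.lawOf` (`Pool/Agent/H342R3/Lim/Law.lean`).  `DiamGe F v r`
and `DiamLe F v r` say that the diameter of the cluster of `v` is at least, at most `r`, and
`optScale n x` is the minimum of `x ^ (-4/13)` and `n ^ (3/4) / x`
(`Pool/Agent/X135/PL/Final.lean`).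
-/

set_option autoImplicit false

namespace Pool.Agent.Results.MP_6bd702_pr.PerimeterLowerTail

open H342P Filter Topology MeasureTheory Pool.Agent.X135.PL

/-- The outer perimeter of the largest cluster is at most `n ^ (7/4) / x` with probability
`exp (- Θ (x ^ (8/13) + x ^ 2 / n ^ (3/2)))`, for all `n` and `1 ≤ x ≤ n ^ (7/4)`.  If it is, then
the diameter of the cluster is of order `n * min (x ^ (-4/13)) (n ^ (3/4) / x)`, except with a much
smaller probability.  A cluster of diameter of order `y * n` has a perimeter of at most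
`n ^ (7/4) / x` with probability `exp (- Θ (x ^ (4/3) * y ^ (7/3)))`, up to the cost
`exp (- Θ (1 / y ^ 2))` of making all other clusters smaller.  The statement that the perimeter is
between `n ^ (7/4 - ε)` and `n ^ (7/4 + ε)` fails with probability
`exp (- Θ (n ^ (8 ε / 13) + n ^ (2 ε - 3/2)))`, and every subsequential limit in law of
`perimeter / n ^ (7/4)` is at most `1 / x` with probability `exp (- Θ (x ^ (8/13)))`. -/
theorem result : ∃ c C K : ℝ, 0 < c ∧ c ≤ 1 ∧ 0 < C ∧ 1 ≤ K ∧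
    (∀ (n : ℕ) (x : ℝ), 1 ≤ n → 1 ≤ x → x ≤ (n : ℝ) ^ (7/4 : ℝ) →
      Real.exp (-(C * (x ^ (8/13 : ℝ) + x ^ 2 / (n : ℝ) ^ (3/2 : ℝ)))) ≤
        Plain.prob n (fun F => ∀ v, Plain.Largest n F v →
          (Plain.perimeter F v : ℝ) ≤ (n : ℝ) ^ (7/4 : ℝ) / x) ∧
      Plain.prob n (fun F => ∃ v, Plain.Largest n F v ∧
          (Plain.perimeter F v : ℝ) ≤ (n : ℝ) ^ (7/4 : ℝ) / x) ≤
        C * Real.exp (-(c * (x ^ (8/13 : ℝ) + x ^ 2 / (n : ℝ) ^ (3/2 : ℝ))))) ∧
    (∀ (n : ℕ) (x : ℝ), 1 ≤ n → 1 ≤ x → x ≤ c * (n : ℝ) ^ (7/4 : ℝ) →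
      Plain.prob n (fun F => ∃ v, Plain.Largest n F v ∧
          (Plain.perimeter F v : ℝ) ≤ (n : ℝ) ^ (7/4 : ℝ) / x ∧
          ¬ (DiamGe F v (optScale n x * n / K) ∧ DiamLe F v (K * (optScale n x * n)))) ≤
        Real.exp (-(x ^ (8/13 : ℝ) + x ^ 2 / (n : ℝ) ^ (3/2 : ℝ))) *
          Plain.prob n (fun F => ∀ v, Plain.Largest n F v →
            (Plain.perimeter F v : ℝ) ≤ (n : ℝ) ^ (7/4 : ℝ) / x)) ∧
    (∀ (n : ℕ) (x y : ℝ), 1 ≤ n → 0 < x → 0 < y →
      Plain.prob n (fun F => ∃ v, DiamGe F v (y * n) ∧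
          (Plain.perimeter F v : ℝ) ≤ (n : ℝ) ^ (7/4 : ℝ) / x) ≤
        C * (1 / y ^ 2) * Real.exp (-(c * (x ^ (4/3 : ℝ) * y ^ (7/3 : ℝ))))) ∧
    (∀ (n : ℕ) (x y : ℝ), 0 < x → 0 < y → y ≤ c → 1 ≤ c * (y * n) →
      x * y ≤ c * (n : ℝ) ^ (3/4 : ℝ) →
      Real.exp (-(C * (1 / y ^ 2 + x ^ (4/3 : ℝ) * y ^ (7/3 : ℝ)))) ≤
        Plain.prob n (fun F => ∀ v, Plain.Largest n F v →
          (Plain.perimeter F v : ℝ) ≤ (n : ℝ) ^ (7/4 : ℝ) / x ∧
          DiamGe F v (y * n) ∧ DiamLe F v (4 * (y * n)))) ∧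
    (∀ (n : ℕ) (ε : ℝ), 1 ≤ n → 0 ≤ ε → ε ≤ 7/4 →
      Real.exp (-(C * ((n : ℝ) ^ (8/13 * ε) + (n : ℝ) ^ (2 * ε - 3/2)))) ≤
        Plain.prob n (fun F => ∀ v, Plain.Largest n F v → ¬ ((n : ℝ) ^ (7/4 - ε) <
          (Plain.perimeter F v : ℝ) ∧ (Plain.perimeter F v : ℝ) < (n : ℝ) ^ (7/4 + ε))) ∧
      Plain.prob n (fun F => ∃ v, Plain.Largest n F v ∧ ¬ ((n : ℝ) ^ (7/4 - ε) <
          (Plain.perimeter F v : ℝ) ∧ (Plain.perimeter F v : ℝ) < (n : ℝ) ^ (7/4 + ε))) ≤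
        C * Real.exp (-(c * ((n : ℝ) ^ (8/13 * ε) + (n : ℝ) ^ (2 * ε - 3/2))))) ∧
    (∀ sel : ℕ → Finset Plain.Edge → ℤ × ℤ, (∀ n F, Plain.Largest n F (sel n F)) →
      ∀ φ : ℕ → ℕ, Tendsto φ atTop atTop → ∀ μ : ProbabilityMeasure ℝ,
      Tendsto (fun i => H342L.lawOf (φ i) fun F =>
        (Plain.perimeter F (sel (φ i) F) : ℝ) / (φ i : ℝ) ^ (7/4 : ℝ)) atTop (𝓝 μ) →
      ∀ x : ℝ, 1 ≤ x →
        ENNReal.ofReal (Real.exp (-(C * x ^ (8/13 : ℝ)))) ≤ (μ : Measure ℝ) {y | y ≤ 1 / x} ∧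
        (μ : Measure ℝ) {y | y ≤ 1 / x} ≤
          ENNReal.ofReal (C * Real.exp (-(c * x ^ (8/13 : ℝ))))) := by
  obtain ⟨-, C0, hC0, hU⟩ := PerimeterExponent.inputs
  obtain ⟨k1, M1, hk1, hM1, htop⟩ := TH494.PT.fin_up hC0 hU
  obtain ⟨k2, M2, hk2, hk21, hM2, hjl⟩ := plain_joint_low hC0 hU
  obtain ⟨M3, hM3, hlow⟩ := plain_low hC0 hU
  obtain ⟨k4, M4, hk4, hM4, hthin⟩ := plain_thin
  obtain ⟨k5, M5, hk5, hM5, hup⟩ := plain_up
  obtain ⟨K, hK, hsc⟩ := plain_scale (A := 1 + M3) (by positivity)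
  have hK0 : 0 < K := by linarith
  obtain ⟨c, hc⟩ : ∃ c : ℝ, c = min (min (min k2 (1 / K ^ 4)) (min k4 (k5 / 2))) (min k5 (k1 / 2)) :=
    ⟨_, rfl⟩
  obtain ⟨C, hC⟩ : ∃ C : ℝ, C = M1 + M2 + 2 * M3 + M4 + M5 + Real.exp k5 := ⟨_, rfl⟩
  have he5 := Real.exp_pos k5
  have hc0 : 0 < c := by
    rw [hc]
    refine lt_min (lt_min (lt_min hk2 (by positivity)) (lt_min hk4 (by positivity)))
      (lt_min hk5 (by positivity))
  have c2 : c ≤ k2 := by
    rw [hc]; exact (min_le_left _ _).trans ((min_le_left _ _).trans (min_le_left _ _))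
  have cK : c ≤ 1 / K ^ 4 := by
    rw [hc]; exact (min_le_left _ _).trans ((min_le_left _ _).trans (min_le_right _ _))
  have c4 : c ≤ k4 := by
    rw [hc]; exact (min_le_left _ _).trans ((min_le_right _ _).trans (min_le_left _ _))
  have c5' : c ≤ k5 / 2 := by
    rw [hc]; exact (min_le_left _ _).trans ((min_le_right _ _).trans (min_le_right _ _))
  have c6 : c ≤ min k5 (k1 / 2) := by rw [hc]; exact min_le_right _ _
  have c5 : c ≤ k5 := by linarith
  have hC0' : 0 < C := by rw [hC]; positivity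
  refine ⟨c, C, K, hc0, c2.trans hk21, hC0', hK, ?_, ?_, ?_, ?_, ?_, ?_⟩
  · intro n x hn hx hxn
    have h0 : 0 ≤ tailRate n x := by unfold tailRate; positivity
    constructor
    · refine le_trans (Real.exp_le_exp.mpr ?_) (hlow n x hn hx)
      have : M3 * tailRate n x ≤ C * tailRate n x :=
        mul_le_mul_of_nonneg_right (by rw [hC]; linarith) h0
      unfold tailRate at this ⊢
      linarith
    · refine (hup n x hn hx hxn).trans ?_
      apply mul_le_mul (by rw [hC]; linarith) _ (Real.exp_nonneg _) hC0'.le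
      apply Real.exp_le_exp.mpr
      have : c * tailRate n x ≤ k5 * tailRate n x := mul_le_mul_of_nonneg_right c5 h0
      unfold tailRate at this ⊢
      linarith
  · intro n x hn hx hxn
    have hxn' : x ≤ (n : ℝ) ^ (7/4 : ℝ) / K ^ 4 := by
      have h3 : c * (n : ℝ) ^ (7/4 : ℝ) ≤ 1 / K ^ 4 * (n : ℝ) ^ (7/4 : ℝ) :=
        mul_le_mul_of_nonneg_right cK (by positivity)
      have h4 : 1 / K ^ 4 * (n : ℝ) ^ (7/4 : ℝ) = (n : ℝ) ^ (7/4 : ℝ) / K ^ 4 := by ring
      linarith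
    have h1 := hsc n x hn hx hxn'
    refine h1.trans ?_
    have h2 : Real.exp (-((1 + M3) * tailRate n x)) =
        Real.exp (-(x ^ (8/13 : ℝ) + x ^ 2 / (n : ℝ) ^ (3/2 : ℝ))) *
          Real.exp (-(M3 * tailRate n x)) := by
      rw [← Real.exp_add]
      congr 1
      unfold tailRate
      ring
    rw [h2]
    exact mul_le_mul_of_nonneg_left (hlow n x hn hx) (Real.exp_nonneg _)
  · intro n x y hn hx hy
    refine (hthin n x y hn hx hy).trans ?_
    have h0 : 0 < x ^ (4/3 : ℝ) * y ^ (7/3 : ℝ) := by positivity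
    have h1 : M4 * (1 / y ^ 2) ≤ C * (1 / y ^ 2) :=
      mul_le_mul_of_nonneg_right (by rw [hC]; linarith) (by positivity)
    apply mul_le_mul h1 _ (Real.exp_nonneg _) (by positivity)
    apply Real.exp_le_exp.mpr
    have : c * (x ^ (4/3 : ℝ) * y ^ (7/3 : ℝ)) ≤ k4 * (x ^ (4/3 : ℝ) * y ^ (7/3 : ℝ)) :=
      mul_le_mul_of_nonneg_right c4 h0.le
    linarith
  · intro n x y hx hy hyc hcn hxy
    have hyn : 0 ≤ y * n := by positivity
    refine le_trans (Real.exp_le_exp.mpr ?_) (hjl n x y hx hy (hyc.trans c2)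
      (hcn.trans (mul_le_mul_of_nonneg_right c2 hyn))
      (hxy.trans (mul_le_mul_of_nonneg_right c2 (by positivity))))
    have h0 : 0 < 1 / y ^ 2 + x ^ (4/3 : ℝ) * y ^ (7/3 : ℝ) := by positivity
    have : M2 * (1 / y ^ 2 + x ^ (4/3 : ℝ) * y ^ (7/3 : ℝ)) ≤
        C * (1 / y ^ 2 + x ^ (4/3 : ℝ) * y ^ (7/3 : ℝ)) :=
      mul_le_mul_of_nonneg_right (by rw [hC]; linarith) h0.le
    linarith
  · intro n ε hn h0 h1
    obtain ⟨g1, g2⟩ := weak_rate hM5 hk1 hM1 hup hlow htop n ε hn h0 h1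
    have hW : 0 ≤ (n : ℝ) ^ (8/13 * ε) + (n : ℝ) ^ (2 * ε - 3/2) := by positivity
    constructor
    · refine le_trans (Real.exp_le_exp.mpr ?_) g1
      have : M3 * ((n : ℝ) ^ (8/13 * ε) + (n : ℝ) ^ (2 * ε - 3/2)) ≤
          C * ((n : ℝ) ^ (8/13 * ε) + (n : ℝ) ^ (2 * ε - 3/2)) :=
        mul_le_mul_of_nonneg_right (by rw [hC]; linarith) hW
      linarith
    · refine g2.trans ?_
      apply mul_le_mul (by rw [hC]; linarith) _ (Real.exp_nonneg _) hC0'.le
      apply Real.exp_le_exp.mpr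
      have := mul_le_mul_of_nonneg_right c6 hW
      linarith
  · intro sel hsel φ hφ μ hμ x hx
    have hx0 : 0 < x := by linarith
    obtain ⟨g1, g2⟩ := lim_low_tail hk5 hM5 hM3 hup hlow hsel hφ hμ hx
    have h0 : 0 ≤ x ^ (8/13 : ℝ) := by positivity
    constructor
    · refine le_trans (ENNReal.ofReal_le_ofReal (Real.exp_le_exp.mpr ?_)) g1
      have : 2 * M3 * x ^ (8/13 : ℝ) ≤ C * x ^ (8/13 : ℝ) :=
        mul_le_mul_of_nonneg_right (by rw [hC]; linarith) h0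
      linarith
    · refine g2.trans (ENNReal.ofReal_le_ofReal ?_)
      have h1 : max M5 (Real.exp k5) ≤ C := by
        rw [hC]
        exact max_le (by linarith) (by linarith)
      apply mul_le_mul h1 _ (Real.exp_nonneg _) hC0'.le
      apply Real.exp_le_exp.mpr
      have : c * x ^ (8/13 : ℝ) ≤ k5 / 2 * x ^ (8/13 : ℝ) := mul_le_mul_of_nonneg_right c5' h0
      linarith

end Pool.Agent.Results.MP_6bd702_pr.PerimeterLowerTail
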