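import Pool.Agent.X136.CQ.Lim3
import Pool.Agent.X136.CQ.Trace
import Pool.Agent.H342R2.Per.Sharp
import Pool.Agent.Results.MP_6bd702_pr.LimitCurves

set_option autoImplicit false

/-!
# Clusters and their perimeters in a random environment

Bond percolation on `ℤ²` in an environment: the edges `e` carry independent random numbers
`q e ∈ [0, 1]` of mean `1 / 2` with `E (2 q e - 1)² ≤ ρ < 1`, and given `q` the edge `e` is open with
probability `q e`. Functions of the macroscopic clusters, in particular the outer perimeter of the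
largest cluster of the box `Λ_n`, have for large `n` the same law given `q` as for critical
percolation (all edges open with probability `1 / 2`).

Definitions: `Pool.Agent.X136.CQ.Model`.
-/

namespace Pool.Agent.Results.MP_6bd702_pr.RandomEnvironmentClusters

open H342P.Plain H342L H342N H342T MeasureTheory ProbabilityTheory Filter Topology
open Pool.Agent.X136.CQ.Model

theorem rho_nn (ν : Measure unitInterval) : 0 ≤ rho ν := integral_nonneg fun _ => sq_nonneg _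

instance : TopologicalSpace.SeparableSpace Curve := by
  have hs : Function.Surjective (fun f : C(unitInterval, ℂ) => (⟨f⟩ : Curve)) := by
    rintro ⟨f⟩
    exact ⟨f, rfl⟩
  exact hs.denseRange.separableSpace PRK_continuous_mk

instance : SecondCountableTopology Curve := UniformSpace.secondCountable_of_separable Curve

/-- **Clusters and perimeters in a random environment.** -/
theorem result :
    (∃ C : ℝ, 0 < C ∧ ∀ (ν : Edge → Measure unitInterval) [∀ e, IsProbabilityMeasure (ν e)]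
      (ρ : ℝ), (∀ e, ∫ p, (p : ℝ) ∂ν e = 1 / 2) → ρ < 1 → (∀ e, rho (ν e) ≤ ρ) →
      (∀ (W : Finset Edge) (m : ℕ), 1 ≤ m → ∀ g : Finset Edge → ℝ, OfLarge m W g →
        ∫ q, ((∫ ω, g (opened W ω) ∂law q) - ∫ ω, g (opened W ω) ∂law half) ^ 2 ∂env ν ≤
          C * (ρ / (1 - ρ) ^ 2) * (m : ℝ) ^ (-(5 / 48 : ℝ)) *
            ∫ ω, g (opened W ω) ^ 2 ∂law half) ∧
      ∀ n : ℕ, 1 ≤ n → ∀ {X : Type} (f : Finset Edge → X), OfLargest n f →
        ∀ h : X → ℝ, (∀ x, |h x| ≤ 1) →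
        ∫ q, ((∫ ω, h (f (opened (edges n) ω)) ∂law q) -
          ∫ ω, h (f (opened (edges n) ω)) ∂law half) ^ 2 ∂env ν ≤
          C * (1 + ρ / (1 - ρ) ^ 2) * (n : ℝ) ^ (-(1 / 10 : ℝ))) ∧
    (∀ (ν : Edge → Measure unitInterval) [∀ e, IsProbabilityMeasure (ν e)] (ρ : ℝ),
      (∀ e, ∫ p, (p : ℝ) ∂ν e = 1 / 2) → ρ < 1 → (∀ e, rho (ν e) ≤ ρ) →
      ∀ (X : Type) [PseudoMetricSpace X] [SecondCountableTopology X] [MeasurableSpace X]
        [BorelSpace X] (k : ℕ → ℕ) (f : ℕ → Finset Edge → X), Tendsto k atTop atTop →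
        (∀ i, 1 ≤ k i) → (∀ i, OfLargest (k i) (f i)) →
        (∀ μ : ProbabilityMeasure X,
          Tendsto (fun i => lawOf (k i) (f i)) atTop (𝓝 μ) ↔
          ∀ h : X → ℝ, Continuous h → (∀ x, |h x| ≤ 1) → ∀ ε : ℝ, 0 < ε →
            Tendsto (fun i => (env ν).real {q | ε ≤
              |(∫ x, h x ∂(lawQ q (k i) (f i) : Measure X)) - ∫ x, h x ∂(μ : Measure X)|})
              atTop (𝓝 0)) ∧
        ((Summable fun i => (k i : ℝ) ^ (-(1 / 10 : ℝ))) →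
          ∀ᵐ q ∂env ν, ∀ φ : ℕ → ℕ, Tendsto φ atTop atTop → ∀ μ : ProbabilityMeasure X,
            Tendsto (fun i => lawQ q (k (φ i)) (f (φ i))) atTop (𝓝 μ) ↔
              Tendsto (fun i => lawOf (k (φ i)) (f (φ i))) atTop (𝓝 μ))) ∧
    (∃ (sel : (n : ℕ) → Finset Edge → ℤ × ℤ) (γ : (n : ℕ) → Finset Edge → Curve),
      (∀ n F, 0 < n → F ⊆ edges n → Largest n F (sel n F)) ∧
      (∀ n F, 0 < n → F ⊆ edges n → IsTrace n F (sel n F) (γ n F)) ∧
      ∀ n, 0 < n → OfLargest n (γ n)) ∧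
    (∀ (ν : Edge → Measure unitInterval) [∀ e, IsProbabilityMeasure (ν e)] (ρ : ℝ),
      (∀ e, ∫ p, (p : ℝ) ∂ν e = 1 / 2) → ρ < 1 → (∀ e, rho (ν e) ≤ ρ) →
      ∀ (sel : (n : ℕ) → Finset Edge → ℤ × ℤ) (γ : (n : ℕ) → Finset Edge → Curve),
        (∀ n F, 0 < n → F ⊆ edges n → Largest n F (sel n F)) →
        (∀ n F, 0 < n → F ⊆ edges n → IsTrace n F (sel n F) (γ n F)) →
        ∀ k : ℕ → ℕ, Tendsto k atTop atTop → (∀ i, 1 ≤ k i) →
        (∀ i, OfLargest (k i) (γ (k i))) → (Summable fun i => (k i : ℝ) ^ (-(1 / 10 : ℝ))) →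
        ∀ᵐ q ∂env ν,
          (∀ φ : ℕ → ℕ, Tendsto φ atTop atTop → ∃ (ψ : ℕ → ℕ) (μ : ProbabilityMeasure Curve),
            StrictMono ψ ∧
              Tendsto (fun i => lawQ q (k (φ (ψ i))) (γ (k (φ (ψ i))))) atTop (𝓝 μ)) ∧
          ∀ φ : ℕ → ℕ, Tendsto φ atTop atTop → ∀ μ : ProbabilityMeasure Curve,
            Tendsto (fun i => lawQ q (k (φ i)) (γ (k (φ i)))) atTop (𝓝 μ) →
            ∀ᵐ c : Curve ∂(μ : Measure Curve), c.path 0 = c.path 1 ∧
              dimH (Set.range c.path) = 7 / 4 ∧ HasDouble c) := by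
  refine ⟨?_, ?_, ?_, ?_⟩
  · obtain ⟨C1, hC1, h1⟩ := Pool.Agent.X136.CQ.var_large
    obtain ⟨C2, hC2, h2⟩ := Pool.Agent.X136.CQ.var_rate
    refine ⟨max C1 C2, lt_max_of_lt_left hC1, ?_⟩
    intro ν _ ρ hm hρ1 hρ
    have hρ0 : 0 ≤ ρ := (rho_nn (ν (0, 0, false))).trans (hρ _)
    have hP : 0 ≤ ρ / (1 - ρ) ^ 2 := by
      have : 0 < 1 - ρ := by linarith
      positivity
    refine ⟨fun W m hm1 g hg => ?_, fun n hn X f hf h hh => ?_⟩
    · refine (h1 ν ρ hm hρ0 hρ1 hρ W m hm1 g hg).trans ?_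
      have hI : 0 ≤ ∫ ω, g (opened W ω) ^ 2 ∂law half := integral_nonneg fun _ => sq_nonneg _
      show C1 * (ρ / (1 - ρ) ^ 2) * (m : ℝ) ^ (-(5 / 48 : ℝ)) *
        ∫ ω, g (opened W ω) ^ 2 ∂law half ≤ _
      gcongr
      exact le_max_left _ _
    · refine (h2 ν ρ hm hρ0 hρ1 hρ n hn f hf h hh).trans ?_
      gcongr
      exact le_max_right _ _
  · intro ν _ ρ hm hρ1 hρ X _ _ _ _ k f hk hk1 hf
    have hρ0 : 0 ≤ ρ := (rho_nn (ν (0, 0, false))).trans (hρ _)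
    exact ⟨fun μ => Pool.Agent.X136.CQ.prob_law ν hm hρ0 hρ1 hρ hk hf μ,
      fun hs => Pool.Agent.X136.CQ.ae_law ν hm hρ0 hρ1 hρ hk1 hs hf⟩
  · exact Pool.Agent.X136.CQ.exists_rule (fun n F v hn hF hv => (LimitCurves.result.1 n F v hn hF hv).1)
      fun n F _ _ => H342P.Plain.exists_largest n F
  · intro ν _ ρ hm hρ1 hρ sel γ hsel hγ k hk hk1 hf hs
    have hρ0 : 0 ≤ ρ := (rho_nn (ν (0, 0, false))).trans (hρ _)
    obtain ⟨hT1, hT⟩ := LimitCurves.result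
    obtain ⟨hT2, hT3⟩ := hT sel hsel
    have hA := Pool.Agent.X136.CQ.ae_law ν hm hρ0 hρ1 hρ hk1 hs hf
    change ∀ᵐ q ∂env ν, _ at hA
    have hγ' : ∀ n F, 0 < n → F ⊆ edges n → (γ n F).path 0 = (γ n F).path 1 ∧
        Set.range (γ n F).path = outerBoundary n F (sel n F) := by
      intro n F hn hF
      have hv : sel n F ∈ H342P.Plain.box n := (hsel n F hn hF).1
      exact (hT1 n F (sel n F) hn hF hv).2 _ (hγ n F hn hF)
    filter_upwards [hA] with q hq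
    refine ⟨fun φ hφ => ?_, fun φ hφ μ hμ => ?_⟩
    · obtain ⟨ψ, μ, hψ, hμ⟩ := hT2 γ hγ (fun i => k (φ i)) (hk.comp hφ)
      exact ⟨ψ, μ, hψ, (hq (fun i => φ (ψ i)) (hφ.comp hψ.tendsto_atTop) μ).2 hμ⟩
    · exact hT3 γ hγ' (fun i => k (φ i)) μ (hk.comp hφ) ((hq φ hφ μ).1 hμ)

end Pool.Agent.Results.MP_6bd702_pr.RandomEnvironmentClusters
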