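import Pool.Agent.X135.TC.Weak
import Pool.Agent.X135.TC.Tail
import Pool.Agent.Results.MP_6bd702_pr.PerimeterExponent

/-!
# The outer perimeters of all clusters of a box at the same time

Critical bond percolation on `ℤ²` in the box `Λ_n = {0, …, n}²`: `F` is the set of open edges,
uniformly distributed on the subsets of `edges n` (`Plain.prob`), and `Plain.perimeter F v` is the
number of steps of the closed lattice path which traces the boundary of the unbounded component of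
the complement of the cluster of `v` (`Pool/Agent/H342R2/Per/Plain.lean`).  `DiamGe F v r` and
`DiamLe F v r` say that the Euclidean diameter of the cluster of `v` is at least, at most `r`
(`Pool/Agent/X135/PL/Final.lean`).  The two profiles are
`thin n r = max r (r ^ (7/4) * (log (4 n / r)) ^ (-3/4))` (`Pool/Agent/X135/TC/Low.lean`) and
`fat n r = r ^ (7/4) * (log (4 n / r)) ^ (1/8)` (`Pool/Agent/X135/TC/Fat2.lean`).
-/

set_option autoImplicit false

namespace Pool.Agent.Results.MP_6bd702_pr.ThinnestClusters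

open H342P Filter Topology Pool.Agent.X135.PL Pool.Agent.X135.TC

/-- (1) Every cluster of diameter `r ≥ 1` has a perimeter of at least `r / 28` and at least
`thin n r / (112 n ^ (3/4))`.  (2) All clusters of the box at the same time, of all diameters
`r ≥ 1`, have a perimeter of at least `θ * thin n r`, except with a probability of at most
`C exp (- c θ ^ (-4/3))`, and (3) this probability is at least `exp (- C θ ^ (-4/3))` if
`C n ^ (-3/4) ≤ θ ≤ 1`.  (4) With a probability of at least `1 - 2 exp (- T)` there is, for all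
scales `D` between `C` and `n / T` at the same time, a cluster whose diameter is between `D` and
`8 D` and whose perimeter is at most `C * thin n D`.  (5) All clusters at the same time have a
perimeter of at most `θ * fat n r`, except with a probability of at most `C exp (- c θ ^ 8)`.
(6) With a probability which tends to one, the perimeters of all clusters of diameter
`r ≥ n ^ ε` are between `r ^ (7/4 - ε)` and `r ^ (7/4 + ε)`. -/
theorem result : ∃ c C : ℝ, 0 < c ∧ 0 < C ∧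
    (∀ (n : ℕ) (F : Finset Plain.Edge), F ⊆ Plain.edges n → ∀ (v : ℤ × ℤ) (r : ℝ), 1 ≤ r →
      DiamGe F v r → r ≤ 28 * (Plain.perimeter F v : ℝ) ∧
        thin n r ≤ 112 * (n : ℝ) ^ (3/4 : ℝ) * (Plain.perimeter F v : ℝ)) ∧
    (∀ (n : ℕ) (θ : ℝ), 1 ≤ n → 0 < θ →
      Plain.prob n (fun F => ∃ v, ∃ r : ℝ, 1 ≤ r ∧ DiamGe F v r ∧
        (Plain.perimeter F v : ℝ) < θ * thin n r) ≤
        C * Real.exp (-(c * θ ^ (-(4/3) : ℝ)))) ∧
    (∀ (n : ℕ) (θ : ℝ), 1 ≤ n → C ≤ θ * (n : ℝ) ^ (3/4 : ℝ) → θ ≤ 1 →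
      Real.exp (-(C * θ ^ (-(4/3) : ℝ))) ≤ Plain.prob n (fun F => ∃ v, ∃ r : ℝ, 1 ≤ r ∧
        DiamGe F v r ∧ (Plain.perimeter F v : ℝ) < θ * thin n r)) ∧
    (∀ (n : ℕ) (T : ℝ), C ≤ T →
      1 - 2 * Real.exp (-T) ≤ Plain.prob n (fun F => ∀ D : ℝ, C ≤ D → T * D ≤ n →
        ∃ v, DiamGe F v D ∧ DiamLe F v (8 * D) ∧
          (Plain.perimeter F v : ℝ) ≤ C * thin n D)) ∧
    (∀ (n : ℕ) (θ : ℝ), 1 ≤ n → 0 ≤ θ →
      Plain.prob n (fun F => ∃ v, ∃ r : ℝ, 1 ≤ r ∧ DiamGe F v r ∧ DiamLe F v r ∧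
        θ * fat n r < (Plain.perimeter F v : ℝ)) ≤ C * Real.exp (-(c * θ ^ 8))) ∧
    (∀ ε : ℝ, 0 < ε → Tendsto (fun n : ℕ => Plain.prob n (fun F => ∀ v, ∀ r : ℝ,
      (n : ℝ) ^ ε ≤ r → DiamGe F v r → DiamLe F v r →
        r ^ (7/4 - ε) < (Plain.perimeter F v : ℝ) ∧
          (Plain.perimeter F v : ℝ) < r ^ (7/4 + ε))) atTop (𝓝 1)) := by
  obtain ⟨-, C0, hC0, hU⟩ := PerimeterExponent.inputs
  obtain ⟨k1, M1, hk1, hM1, h1⟩ := all_low
  obtain ⟨M2, hM2, h2⟩ := thin_tail_low hC0 hU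
  obtain ⟨M3, hM3, h3⟩ := all_scales hC0 hU
  obtain ⟨k4, M4, hk4, hM4, h4⟩ := all_up hC0 hU
  obtain ⟨c, hc⟩ : ∃ c : ℝ, c = min k1 k4 := ⟨_, rfl⟩
  obtain ⟨C, hC⟩ : ∃ C : ℝ, C = M1 + M2 + M3 + M4 := ⟨_, rfl⟩
  have hc0 : 0 < c := by rw [hc]; exact lt_min hk1 hk4
  have hC0' : 0 < C := by rw [hC]; linarith
  have c1 : c ≤ k1 := by rw [hc]; exact min_le_left _ _
  have c4 : c ≤ k4 := by rw [hc]; exact min_le_right _ _
  have g2 : ∀ (n : ℕ) (θ : ℝ), 1 ≤ n → 0 < θ →
      Plain.prob n (fun F => ∃ v, ∃ r : ℝ, 1 ≤ r ∧ DiamGe F v r ∧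
        (Plain.perimeter F v : ℝ) < θ * thin n r) ≤
        C * Real.exp (-(c * θ ^ (-(4/3) : ℝ))) := by
    intro n θ hn hθ
    refine (h1 n θ hn hθ).trans ?_
    apply mul_le_mul (by rw [hC]; linarith) _ (Real.exp_nonneg _) hC0'.le
    apply Real.exp_le_exp.mpr
    have := mul_le_mul_of_nonneg_right c1 (by positivity : 0 ≤ θ ^ (-(4/3) : ℝ))
    linarith
  have g5 : ∀ (n : ℕ) (θ : ℝ), 1 ≤ n → 0 ≤ θ →
      Plain.prob n (fun F => ∃ v, ∃ r : ℝ, 1 ≤ r ∧ DiamGe F v r ∧ DiamLe F v r ∧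
        θ * fat n r < (Plain.perimeter F v : ℝ)) ≤ C * Real.exp (-(c * θ ^ 8)) := by
    intro n θ hn hθ
    refine (h4 n θ hn hθ).trans ?_
    apply mul_le_mul (by rw [hC]; linarith) _ (Real.exp_nonneg _) hC0'.le
    apply Real.exp_le_exp.mpr
    have := mul_le_mul_of_nonneg_right c4 (by positivity : 0 ≤ θ ^ 8)
    linarith
  refine ⟨c, C, hc0, hC0', ?_, g2, ?_, ?_, g5, fun ε hε => weak_all hc0 g2 g5 hε⟩
  · intro n F hF v r hr h
    exact ⟨(diam_facts hF hr h).2, thin_det hF hr h⟩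
  · intro n θ hn hθn hθ1
    have hn0 : (0:ℝ) < n := by exact_mod_cast hn
    have hn34 : 0 < (n:ℝ) ^ (3/4:ℝ) := by positivity
    have hθ0 : 0 < θ := by
      by_contra hcon
      push Not at hcon
      have : θ * (n:ℝ) ^ (3/4:ℝ) ≤ 0 := mul_nonpos_of_nonpos_of_nonneg hcon hn34.le
      linarith
    refine le_trans (Real.exp_le_exp.mpr ?_) (h2 n θ hn (by rw [hC] at hθn; linarith) hθ1)
    have := mul_le_mul_of_nonneg_right (show M2 ≤ C by rw [hC]; linarith)
      (by positivity : 0 ≤ θ ^ (-(4/3) : ℝ))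
    linarith
  · intro n T hT
    have g := h3 n T (by rw [hC] at hT; linarith)
    rw [Plain.prob_not n] at g
    have g' : Plain.prob n (fun F => ∀ D : ℝ, M3 ≤ D → T * D ≤ n →
        ∃ v, DiamGe F v D ∧ DiamLe F v (8 * D) ∧
          (Plain.perimeter F v : ℝ) ≤ M3 * thin n D) ≤
        Plain.prob n (fun F => ∀ D : ℝ, C ≤ D → T * D ≤ n →
        ∃ v, DiamGe F v D ∧ DiamLe F v (8 * D) ∧
          (Plain.perimeter F v : ℝ) ≤ C * thin n D) := by
      rw [Plain.prob_eq, Plain.prob_eq]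
      refine H974.Pr_mono hok ?_
      intro F _ hF D hD1 hD2
      have hMC : M3 ≤ C := by rw [hC]; linarith
      obtain ⟨v, e1, e2, e3⟩ := hF D (hMC.trans hD1) hD2
      refine ⟨v, e1, e2, e3.trans ?_⟩
      have hD0 : 0 < D := by linarith
      have : 0 < thin n D := lt_of_lt_of_le hD0 (le_max_left _ _)
      exact mul_le_mul_of_nonneg_right hMC this.le
    linarith

end Pool.Agent.Results.MP_6bd702_pr.ThinnestClusters
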